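import Pool.Agent.Lib_helper65.MolsAndre
import Pool.Agent.Lib_helper65.MolsKnuth

/-!
# MP_adbd0c_co: the conjecture `M(n) < n - 1` is false

`Quasigroup`, `IsotopicToGroup`, `Orthogonal`, `Realizable` and `M` are defined in
`Pool/Agent/Lib_helper65/MolsBase.lean`, exactly as in the problem file.

We show `M q = q - 1` for every prime power `q ≥ 9` that is not a prime
(so `q = 9, 16, 25, 27, 32, 49, 64, 81, ...`).  In particular the conjecture
`M(n) < n - 1 for all n ≥ 5` fails, at infinitely many `n`.

The squares are read off from a translation plane of order `q` at an affine point `O`: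
rows, columns and symbols are the points other than `O` on three lines through `O`, and the
cells are the lines which do not pass through `O`.  For `q = s ^ e` with `s ≥ 3`, `e ≥ 2` we
use an André plane and show that the inverse property fails in each of the `q - 1` squares;
for `q = 2 ^ r` with `r ≥ 5` prime we use Knuth's binary semifield plane and show that
commutativity fails, although a group with these squares would have exponent two.
-/

namespace Pool.Agent.Results.MP_adbd0c_co.NonPrimePowers

open Pool.Agent.Mols65

/-- **The conjecture is false at every non-prime prime power `q ≥ 9`**: there are `q - 1`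
mutually orthogonal Cayley tables of quasigroups of order `q` not isotopic to a group. -/
theorem result :
    ∀ q : ℕ, IsPrimePow q → ¬ q.Prime → 9 ≤ q → M q = q - 1 := by
  intro q hq hnp h9
  obtain ⟨p, r, hp, hr0, rfl⟩ := hq
  have hp' : p.Prime := Nat.prime_iff.2 hp
  haveI : Fact p.Prime := ⟨hp'⟩
  apply M_eq_of_realizable (by omega)
  have hr2 : 2 ≤ r := by
    by_contra h
    have : r = 1 := by omega
    subst this
    rw [pow_one] at hnp
    exact hnp hp'
  by_cases hp2 : p = 2
  · subst hp2
    by_cases hr : r.Prime
    · apply realizable_knuth hr
      by_contra h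
      have h3 : r ≤ 3 := by omega
      have : 2 ^ r ≤ 2 ^ 3 := Nat.pow_le_pow_right (by norm_num) h3
      omega
    · obtain ⟨d, e, hd, he, hde⟩ : ∃ d e, 2 ≤ d ∧ 2 ≤ e ∧ d * e = r := by
        obtain ⟨d, hd, hd1, hdr⟩ := Nat.exists_dvd_of_not_prime2 hr2 hr
        obtain ⟨e, rfl⟩ := hd
        refine ⟨d, e, hd1, ?_, rfl⟩
        by_contra h
        have : e = 0 ∨ e = 1 := by omega
        rcases this with rfl | rfl <;> omega
      rw [← hde]
      apply realizable_andre 2 d e (by omega) he
      have : 2 ^ 2 ≤ 2 ^ d := Nat.pow_le_pow_right (by norm_num) hd
      omega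
  · have h3 : 3 ≤ p := by
      have := hp'.two_le
      omega
    have := realizable_andre p 1 r (le_refl 1) hr2 (by simpa using h3)
    simpa using this

end Pool.Agent.Results.MP_adbd0c_co.NonPrimePowers
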