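import Pool.Agent.Lib_helper37.ML.Num

/-!
# Polynomial lower bound for `M n`, all large `n`

Write `n = t * m + u` with `0 < u < t` so that `t` and `u` have no prime factor `≤ k + 1` and
`m`, `m + 1` have none but possibly a large power of two (a sieve of dimension two chooses `t`
and `m`). Wilson's construction gives `k` mutually orthogonal latin squares of order `n` with a
common subarray of order `m > k`. Permute its rows by `π`, the same `π` for all squares: for each
square at most one `π` gives a square isotopic to a group, so some `π` serves all `k` squares.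
-/

set_option autoImplicit false

open Pool.Agent.Mols65

namespace Pool.Agent.Results.MP_adbd0c_co.PolynomialGrowth

/-- **Polynomial growth**: for some `c > 0` and all large `n` there are at least `n ^ c`
quasigroups of order `n`, none isotopic to a group, with mutually orthogonal Cayley tables. -/
theorem result : ∃ c : ℝ, 0 < c ∧ ∃ n₀ : ℕ, ∀ n : ℕ, n₀ ≤ n → (n : ℝ) ^ c ≤ M n := by
  obtain ⟨e, X₀, he, hr⟩ := Pool.Agent.Lib_helper37.ML.realizable_large
  obtain ⟨D, hD⟩ : ∃ D : ℕ, D = 3 * e + 5 := ⟨_, rfl⟩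
  have hD0 : (0 : ℝ) < 2 * D := by
    have : (0 : ℝ) < D := by
      rw [hD]
      positivity
    linarith
  refine ⟨1 / (2 * D), by positivity, (3 + X₀) ^ (2 * D), ?_⟩
  intro n hn
  obtain ⟨y, hy⟩ : ∃ y : ℝ, y = (n : ℝ) ^ (1 / (2 * D) : ℝ) := ⟨_, rfl⟩
  rw [← hy]
  have hy0 : 0 ≤ y := by
    rw [hy]
    positivity
  have hyn : y ^ (2 * D) = n := by
    rw [hy, ← Real.rpow_natCast, ← Real.rpow_mul (by positivity)]
    push_cast
    rw [one_div, inv_mul_cancel₀ hD0.ne', Real.rpow_one]
  have hyX : (3 : ℝ) + X₀ ≤ y := by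
    refine le_of_pow_le_pow_left₀ (n := 2 * D) (by omega) hy0 ?_
    rw [hyn]
    exact_mod_cast hn
  have hX0 : (0 : ℝ) ≤ X₀ := by positivity
  obtain ⟨K, hK⟩ : ∃ K : ℕ, K = ⌊y ^ 2⌋₊ := ⟨_, rfl⟩
  have hK1 : (K : ℝ) ≤ y ^ 2 := by
    rw [hK]
    exact Nat.floor_le (by positivity)
  have hK2 : y ^ 2 < K + 1 := by
    rw [hK]
    exact Nat.lt_floor_add_one _
  have hyy : 3 * y ≤ y ^ 2 := by nlinarith
  have hKX : 3 + X₀ ≤ K := by
    have h1 : (3 : ℝ) + X₀ ≤ K := by linarith
    exact_mod_cast h1
  obtain ⟨k, hk⟩ : ∃ k, K = k + 2 := ⟨K - 2, by omega⟩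
  have hyk : y ≤ k := by
    have h1 : (K : ℝ) = k + 2 := by exact_mod_cast hk
    linarith
  have hKn : K ^ D ≤ n := by
    have h1 : (K : ℝ) ^ D ≤ n := by
      rw [← hyn, pow_mul]
      exact pow_le_pow_left₀ (by positivity) hK1 D
    exact_mod_cast h1
  have hKe : 1 ≤ K ^ e := Nat.one_le_pow _ _ (by omega)
  have hKeX : X₀ ≤ K ^ e := by
    calc X₀ ≤ K ^ 1 := by
          rw [pow_one]
          omega
      _ ≤ K ^ e := Nat.pow_le_pow_right (by omega) he
  have hreal : Realizable n k := by
    apply hr k (K ^ e) (by omega) hKeX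
    · exact Nat.pow_le_pow_left (by omega) e
    · rw [← hk]
      refine lt_of_lt_of_le ?_ hKn
      obtain ⟨P, hP⟩ : ∃ P, P = K * K ^ e := ⟨_, rfl⟩
      have hP1 : 1 ≤ P := by
        rw [hP]
        exact Nat.mul_pos (by omega) hKe
      have h1 : 2 * K * K ^ e = 2 * P := by
        rw [hP]
        ring
      rw [h1]
      calc 2 * P * (2 * P + 1) * K ^ e ≤ (K * P) * (K * P) * K ^ e := by
            apply Nat.mul_le_mul_right
            apply Nat.mul_le_mul
            · exact Nat.mul_le_mul_right _ (by omega)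
            · calc 2 * P + 1 ≤ 3 * P := by omega
                _ ≤ K * P := Nat.mul_le_mul_right _ (by omega)
        _ = K ^ (3 * e + 4) := by
            rw [hP]
            ring
        _ < K ^ D := by
            rw [hD]
            exact Nat.pow_lt_pow_right (by omega) (by omega)
  have hn2 : 2 ≤ n := by
    calc 2 ≤ K := by omega
      _ = K ^ 1 := (pow_one K).symm
      _ ≤ K ^ D := Nat.pow_le_pow_right (by omega) (by omega)
      _ ≤ n := hKn
  have h1 : k ≤ M n := by
    refine le_csSup ⟨n - 1, ?_⟩ hreal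
    intro m' hm'
    exact Realizable.le hn2 hm'
  have h2 : (k : ℝ) ≤ M n := by exact_mod_cast h1
  linarith

end Pool.Agent.Results.MP_adbd0c_co.PolynomialGrowth
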