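import Pool.Agent.Lib_helper65.MolsBase

/-!
# Lower bound for `M p`, `p` prime

For a square `w ≠ 0, 1, 4` modulo `p` put `a = (w - 1)/(w - 4)` and let `θ_w` be the map with
`θ_w(u) = a u` for a square `u` and `θ_w(u) = 4 a u` for a non-square `u`. The squares
`(x, y) ↦ x + θ_w (y - x)` are mutually orthogonal latin squares, and none of them is isotopic
to a group.
-/

set_option autoImplicit false

open Pool.Agent.Mols65

namespace Pool.Agent.Results.MP_adbd0c_co.PrimeOrders

section

variable {p : ℕ} [hp : Fact p.Prime]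

/-- The map with slope `c` on the squares and `d` on the non-squares. -/
noncomputable def phi (c d u : ZMod p) : ZMod p := by
  classical
  exact if IsSquare u then c * u else d * u

theorem phi_sub (c d c' d' u : ZMod p) :
    phi c d u - phi c' d' u = phi (c - c') (d - d') u := by
  unfold phi
  split_ifs
  · ring
  · ring

theorem phi_id (u : ZMod p) : phi 1 1 u = u := by
  unfold phi
  split_ifs
  · ring
  · ring

/-- `phi c d` is injective when `c d` is a non-zero square. -/
theorem phi_inj {c d : ZMod p} (hc : c ≠ 0) (hd : d ≠ 0) (h : IsSquare (c * d)) :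
    Function.Injective (phi c d : ZMod p → ZMod p) := by
  classical
  intro u v huv
  unfold phi at huv
  have key : ∀ u v : ZMod p, IsSquare u → ¬ IsSquare v → c * u ≠ d * v := by
    intro u v hu hv huv
    apply hv
    have h1 : v = (c * d) * u * (d⁻¹ * d⁻¹) := by
      field_simp
      rw [mul_comm v d, ← huv]
    rw [h1]
    exact (h.mul hu).mul ⟨d⁻¹, rfl⟩
  split_ifs at huv with h1 h2 h2
  · exact mul_left_cancel₀ hc huv
  · exact absurd huv (key u v h1 h2)
  · exact absurd huv.symm (key v u h2 h1)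
  · exact mul_left_cancel₀ hd huv

/-- The square `x + θ(u)`, `u = y - x`, is not isotopic to a group unless `θ` is linear. -/
theorem not_group (θ : ZMod p → ZMod p) (h0 : θ 0 = 0) (hθ : ∀ e, ∃ u, θ u ≠ e * u) :
    ¬ ∃ (G : Type) (_ : Group G) (α β γ : ZMod p ≃ G),
      ∀ l : ZMod p × ZMod p, γ (l.1 + θ l.2) = α l.1 * β (l.1 + l.2) := by
  rintro ⟨G, hG, α', β', γ', h'⟩
  -- replace `G` by `ZMod p`
  have hfin : Finite G := Finite.of_equiv _ α'
  have hcard : Nat.card G = p := by
    rw [← Nat.card_congr α', Nat.card_zmod]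
  have hcyc : IsCyclic G := isCyclic_of_prime_card hcard
  have hz : Nat.card (Multiplicative (ZMod p)) = Nat.card G := by
    rw [hcard]
    exact Nat.card_zmod p
  obtain ⟨φ⟩ : Nonempty (G ≃* Multiplicative (ZMod p)) :=
    ⟨(mulEquivOfCyclicCardEq hz).symm⟩
  obtain ⟨α, hα⟩ : ∃ α : ZMod p ≃ ZMod p, ∀ x, α x = Multiplicative.toAdd (φ (α' x)) :=
    ⟨(α'.trans φ.toEquiv).trans Multiplicative.toAdd, fun _ => rfl⟩
  obtain ⟨β, hβ⟩ : ∃ α : ZMod p ≃ ZMod p, ∀ x, α x = Multiplicative.toAdd (φ (β' x)) :=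
    ⟨(β'.trans φ.toEquiv).trans Multiplicative.toAdd, fun _ => rfl⟩
  obtain ⟨γ, hγ⟩ : ∃ α : ZMod p ≃ ZMod p, ∀ x, α x = Multiplicative.toAdd (φ (γ' x)) :=
    ⟨(γ'.trans φ.toEquiv).trans Multiplicative.toAdd, fun _ => rfl⟩
  have h : ∀ x u, γ (x + θ u) = α x + β (x + u) := by
    intro x u
    rw [hα, hβ, hγ, h' (x, u), map_mul, toAdd_mul]
  -- the shifted functions in terms of the old ones
  obtain ⟨f, hf⟩ : ∃ f : ZMod p → ZMod p, ∀ x, α (x + 1) = f (α x) :=
    ⟨fun A => α (α.symm A + 1), fun x => by simp⟩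
  obtain ⟨g, hg⟩ : ∃ g : ZMod p → ZMod p, ∀ x, β (x + 1) = g (β x) :=
    ⟨fun A => β (β.symm A + 1), fun x => by simp⟩
  obtain ⟨k, hk⟩ : ∃ k : ZMod p → ZMod p, ∀ x, γ (x + 1) = k (γ x) :=
    ⟨fun A => γ (γ.symm A + 1), fun x => by simp⟩
  have hfg : ∀ A B, k (A + B) = f A + g B := by
    intro A B
    obtain ⟨x, rfl⟩ := α.surjective A
    obtain ⟨y, rfl⟩ := β.surjective B
    have h1 := h x (y - x)
    rw [add_sub_cancel] at h1
    rw [← h1, ← hk, ← hf, ← hg]
    have h2 := h (x + 1) (y - x)
    have h3 : x + 1 + (y - x) = y + 1 := by ring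
    have h4 : x + θ (y - x) + 1 = x + 1 + θ (y - x) := by ring
    rw [h3] at h2
    rw [h4, h2]
  have hk1 : ∀ A B, k (A + B) = k A + k B - k 0 := by
    intro A B
    have h1 := hfg A B
    have h2 := hfg A 0
    have h3 := hfg 0 B
    have h4 := hfg 0 0
    rw [add_zero] at h2
    rw [zero_add] at h3
    rw [add_zero] at h4
    rw [h1, h2, h3, h4]
    ring
  obtain ⟨c, hc⟩ : ∃ c, ∀ A : ZMod p, k A = c * A + k 0 := by
    refine ⟨k 1 - k 0, fun A => ?_⟩
    have h1 : ∀ n : ℕ, k (n : ZMod p) = (k 1 - k 0) * (n : ZMod p) + k 0 := by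
      intro n
      induction n with
      | zero => simp
      | succ n ih =>
        push_cast
        rw [hk1, ih]
        ring
    have h2 := h1 A.val
    rw [ZMod.natCast_zmod_val] at h2
    exact h2
  have hc1 : c = 1 := by
    by_contra hne
    have hne' : (1 : ZMod p) - c ≠ 0 := sub_ne_zero.2 (Ne.symm hne)
    obtain ⟨z, hz⟩ := γ.surjective (k 0 / (1 - c))
    have h1 := hk z
    rw [hc, hz] at h1
    have h2 : c * (k 0 / (1 - c)) + k 0 = k 0 / (1 - c) := by
      field_simp
      ring
    rw [h2, ← hz] at h1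
    have h3 := γ.injective h1
    exact one_ne_zero (add_eq_left.1 h3)
  rw [hc1] at hc
  have hγ1 : ∀ x, γ (x + 1) = γ x + k 0 := by
    intro x
    rw [hk, hc, one_mul]
  have hα1 : ∀ x, α (x + 1) = α x + (k 0 - g 0) := by
    intro x
    have h1 := hfg (α x) 0
    rw [add_zero, hc, one_mul] at h1
    rw [hf]
    linear_combination -h1
  have hβ1 : ∀ x, β (x + 1) = β x + (k 0 - f 0) := by
    intro x
    have h1 := hfg 0 (β x)
    rw [zero_add, hc, one_mul] at h1
    rw [hg]
    linear_combination -h1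
  have hlin : ∀ (F : ZMod p → ZMod p) (d : ZMod p), (∀ x, F (x + 1) = F x + d) →
      ∀ x, F x = F 0 + d * x := by
    intro F d hF x
    have h1 : ∀ n : ℕ, F (n : ZMod p) = F 0 + d * (n : ZMod p) := by
      intro n
      induction n with
      | zero => simp
      | succ n ih =>
        push_cast
        rw [hF, ih]
        ring
    have h2 := h1 x.val
    rw [ZMod.natCast_zmod_val] at h2
    exact h2
  have hγ2 := hlin γ _ hγ1
  have hβ2 := hlin β _ hβ1
  have h00 := h 0 0
  rw [h0, add_zero] at h00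
  have hk0 : k 0 ≠ 0 := by
    intro h1
    have h2 := hγ1 0
    rw [h1, add_zero] at h2
    have h3 := γ.injective h2
    rw [zero_add] at h3
    exact one_ne_zero h3
  obtain ⟨u, hu⟩ := hθ ((k 0 - f 0) / k 0)
  apply hu
  have h1 := h 0 u
  rw [zero_add, zero_add, hγ2, hβ2 u, h00] at h1
  have h2 : k 0 * θ u = (k 0 - f 0) * u := by linear_combination h1
  rw [div_mul_eq_mul_div, eq_div_iff hk0, mul_comm]
  exact h2

/-- The number of non-zero squares modulo `p` is at least `(p - 1) / 2`. -/
theorem card_squares :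
    p ≤ 2 * ((Finset.univ : Finset (ZMod p)).filter fun w => w ≠ 0 ∧ IsSquare w).card + 1 := by
  classical
  have h1 : ((Finset.univ : Finset (ZMod p)).erase 0).card ≤
      2 * (((Finset.univ : Finset (ZMod p)).erase 0).image fun u => u * u).card := by
    refine Finset.card_le_mul_card_image (f := fun u : ZMod p => u * u)
      ((Finset.univ : Finset (ZMod p)).erase 0) 2 ?_
    intro b _
    by_cases hb : ∃ u : ZMod p, u * u = b
    · obtain ⟨u, rfl⟩ := hb
      refine le_trans (Finset.card_le_card (t := ({u, -u} : Finset (ZMod p))) ?_)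
        Finset.card_le_two
      intro v hv
      rw [Finset.mem_filter] at hv
      rw [Finset.mem_insert, Finset.mem_singleton]
      exact mul_self_eq_mul_self_iff.1 hv.2
    · have h2 : (((Finset.univ : Finset (ZMod p)).erase 0).filter fun u => u * u = b) = ∅ := by
        rw [Finset.filter_eq_empty_iff]
        intro u _ hu
        exact hb ⟨u, hu⟩
      rw [h2]
      simp
  have h2 : (((Finset.univ : Finset (ZMod p)).erase 0).image fun u => u * u) ⊆
      (Finset.univ : Finset (ZMod p)).filter fun w => w ≠ 0 ∧ IsSquare w := by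
    intro w hw
    obtain ⟨u, hu, rfl⟩ := Finset.mem_image.1 hw
    rw [Finset.mem_filter]
    exact ⟨Finset.mem_univ _, mul_self_ne_zero.2 (Finset.ne_of_mem_erase hu), ⟨u, rfl⟩⟩
  have h3 := Finset.card_le_card h2
  rw [Finset.card_erase_of_mem (Finset.mem_univ _), Finset.card_univ, ZMod.card] at h1
  omega

/-- The slope attached to `w`. -/
noncomputable def sl (w : ZMod p) : ZMod p := (w - 1) / (w - 4)

theorem sl_sub (w v : ZMod p) (hw : w ≠ 4) (hv : v ≠ 4) :
    sl w - sl v = 3 * (v - w) / ((w - 4) * (v - 4)) := by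
  have h1 : w - 4 ≠ 0 := sub_ne_zero.2 hw
  have h2 : v - 4 ≠ 0 := sub_ne_zero.2 hv
  unfold sl
  field_simp
  ring

theorem realizable (h7 : 7 ≤ p) : ∃ m, p ≤ 2 * m + 5 ∧ Realizable p m := by
  classical
  have hcast : ∀ n : ℕ, 0 < n → n < p → (n : ZMod p) ≠ 0 := by
    intro n h0 hn h
    rw [ZMod.natCast_eq_zero_iff] at h
    exact absurd (Nat.le_of_dvd h0 h) (by omega)
  have h2 : (2 : ZMod p) ≠ 0 := by exact_mod_cast hcast 2 (by omega) (by omega)
  have h3 : (3 : ZMod p) ≠ 0 := by exact_mod_cast hcast 3 (by omega) (by omega)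
  have h4 : (4 : ZMod p) ≠ 0 := by exact_mod_cast hcast 4 (by omega) (by omega)
  have h41 : (4 : ZMod p) ≠ 1 := by
    intro h
    apply h3
    linear_combination h
  have hsq4 : IsSquare (4 : ZMod p) := ⟨2, by norm_num⟩
  obtain ⟨I, hI⟩ : ∃ I : Finset (ZMod p), I = (Finset.univ : Finset (ZMod p)).filter
    fun w => (w ≠ 0 ∧ IsSquare w) ∧ w ≠ 1 ∧ w ≠ 4 := ⟨_, rfl⟩
  have hmem : ∀ w ∈ I, (w ≠ 0 ∧ IsSquare w) ∧ w ≠ 1 ∧ w ≠ 4 := by
    intro w hw
    rw [hI, Finset.mem_filter] at hw
    exact hw.2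
  refine ⟨I.card, ?_, ?_⟩
  · have h5 := card_squares (p := p)
    have h6 : ((Finset.univ : Finset (ZMod p)).filter fun w => w ≠ 0 ∧ IsSquare w).card ≤
        I.card + 2 := by
      have h7 : ((Finset.univ : Finset (ZMod p)).filter fun w => w ≠ 0 ∧ IsSquare w) ⊆
          I ∪ {1, 4} := by
        intro w hw
        rw [Finset.mem_filter] at hw
        rw [Finset.mem_union, hI, Finset.mem_filter, Finset.mem_insert, Finset.mem_singleton]
        by_cases h8 : w = 1 ∨ w = 4
        · exact Or.inr h8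
        · push Not at h8
          exact Or.inl ⟨Finset.mem_univ _, hw.2, h8⟩
      refine (Finset.card_le_card h7).trans ((Finset.card_union_le _ _).trans ?_)
      have := Finset.card_le_two (a := (1 : ZMod p)) (b := 4)
      omega
    omega
  · -- properties of the slopes
    have hsl0 : ∀ w ∈ I, sl w ≠ 0 := by
      intro w hw
      exact div_ne_zero (sub_ne_zero.2 (hmem w hw).2.1) (sub_ne_zero.2 (hmem w hw).2.2)
    have hsl1 : ∀ w ∈ I, sl w - 1 = 3 / (w - 4) := by
      intro w hw
      have h5 : w - 4 ≠ 0 := sub_ne_zero.2 (hmem w hw).2.2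
      unfold sl
      field_simp
      ring
    have hsl4 : ∀ w ∈ I, 4 * sl w - 1 = 3 * w / (w - 4) := by
      intro w hw
      have h5 : w - 4 ≠ 0 := sub_ne_zero.2 (hmem w hw).2.2
      unfold sl
      field_simp
      ring
    obtain ⟨θ, hθ⟩ : ∃ θ : I → ZMod p → ZMod p, θ = fun w => phi (sl w.1) (4 * sl w.1) :=
      ⟨_, rfl⟩
    have hinj0 : ∀ w : I, Function.Injective (θ w) := by
      intro w
      rw [hθ]
      have h5 := hsl0 w.1 w.2
      exact phi_inj h5 (mul_ne_zero h4 h5) ⟨2 * sl w.1, by ring⟩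
    have hinj1 : ∀ w : I, Function.Injective fun u => θ w u - u := by
      intro w
      have h5 : (fun u => θ w u - u) = phi (sl w.1 - 1) (4 * sl w.1 - 1) := by
        funext u
        rw [hθ]
        show phi (sl w.1) (4 * sl w.1) u - u = _
        rw [← phi_sub, phi_id]
      rw [h5, hsl1 w.1 w.2, hsl4 w.1 w.2]
      have h6 : w.1 - 4 ≠ 0 := sub_ne_zero.2 (hmem w.1 w.2).2.2
      have h7 := (hmem w.1 w.2).1
      refine phi_inj (div_ne_zero h3 h6) (div_ne_zero (mul_ne_zero h3 h7.1) h6) ?_
      have h8 : 3 / (w.1 - 4) * (3 * w.1 / (w.1 - 4)) =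
          w.1 * (3 / (w.1 - 4) * (3 / (w.1 - 4))) := by
        field_simp
      rw [h8]
      exact h7.2.mul ⟨_, rfl⟩
    have hinj2 : ∀ w v : I, w ≠ v → Function.Injective fun u => θ w u - θ v u := by
      intro w v hwv
      have h5 : (fun u => θ w u - θ v u) =
          phi (sl w.1 - sl v.1) (4 * sl w.1 - 4 * sl v.1) := by
        funext u
        rw [hθ]
        exact phi_sub _ _ _ _ _
      rw [h5, ← mul_sub]
      have h6 : sl w.1 - sl v.1 ≠ 0 := by
        rw [sl_sub w.1 v.1 (hmem w.1 w.2).2.2 (hmem v.1 v.2).2.2]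
        refine div_ne_zero (mul_ne_zero h3 (sub_ne_zero.2 ?_)) (mul_ne_zero
          (sub_ne_zero.2 (hmem w.1 w.2).2.2) (sub_ne_zero.2 (hmem v.1 v.2).2.2))
        intro h7
        exact hwv (Subtype.ext h7.symm)
      exact phi_inj h6 (mul_ne_zero h4 h6) ⟨2 * (sl w.1 - sl v.1), by ring⟩
    have hz0 : ∀ w : I, θ w 0 = 0 := by
      intro w
      rw [hθ]
      show phi (sl w.1) (4 * sl w.1) 0 = 0
      unfold phi
      split_ifs
      · exact mul_zero _
      · exact mul_zero _
    have hnl : ∀ (w : I) (e : ZMod p), ∃ u, θ w u ≠ e * u := by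
      intro w e
      by_contra hcon
      push Not at hcon
      have h5 := hcon 1
      have h6 : θ w 1 = sl w.1 := by
        rw [hθ]
        show phi (sl w.1) (4 * sl w.1) 1 = sl w.1
        unfold phi
        rw [if_pos ⟨1, by ring⟩, mul_one]
      rw [h6, mul_one] at h5
      obtain ⟨ν, hν⟩ : ∃ ν : ZMod p, ¬ IsSquare ν := by
        by_contra hall
        push Not at hall
        have h8 : Function.Surjective fun u : ZMod p => u * u := by
          intro b
          obtain ⟨u, hu⟩ := hall b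
          exact ⟨u, hu.symm⟩
        have h9 := (Finite.injective_iff_surjective.2 h8) (a₁ := 1) (a₂ := -1) (by ring)
        apply h2
        linear_combination h9
      have h10 := hcon ν
      have h11 : θ w ν = 4 * sl w.1 * ν := by
        rw [hθ]
        show phi (sl w.1) (4 * sl w.1) ν = _
        unfold phi
        rw [if_neg hν]
      rw [h11, ← h5] at h10
      have hν0 : ν ≠ 0 := by
        rintro rfl
        exact hν ⟨0, by ring⟩
      have h12 : 3 * (sl w.1 * ν) = 0 := by linear_combination h10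
      exact mul_ne_zero h3 (mul_ne_zero (hsl0 w.1 w.2) hν0) h12
    have hcardI : Fintype.card I = I.card := Fintype.card_coe I
    rw [← hcardI]
    refine realizable_of_coords (W := ZMod p) (Λ := ZMod p × ZMod p) (ι := I)
      (ZMod.card p) (by rw [Fintype.card_prod, ZMod.card, sq])
      (fun l => l.1) (fun l => l.1 + l.2) (fun w l => l.1 + θ w l.2) ?_ ?_ ?_ ?_ ?_
    · rintro ⟨x, u⟩ ⟨y, v⟩ h
      simp only [Prod.mk.injEq] at h
      obtain ⟨rfl, h⟩ := h
      rw [add_left_cancel h]
    · rintro w ⟨x, u⟩ ⟨y, v⟩ h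
      simp only [Prod.mk.injEq] at h
      obtain ⟨rfl, h⟩ := h
      rw [hinj0 w (add_left_cancel h)]
    · rintro w ⟨x, u⟩ ⟨y, v⟩ h
      simp only [Prod.mk.injEq] at h
      have h5 : u = v := by
        apply hinj1 w
        show θ w u - u = θ w v - v
        linear_combination h.2 - h.1
      subst h5
      rw [add_right_cancel h.1]
    · rintro w v hwv ⟨x, u⟩ ⟨y, z⟩ h
      simp only [Prod.mk.injEq] at h
      have h5 : u = z := by
        apply hinj2 w v hwv
        show θ w u - θ v u = θ w z - θ v z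
        linear_combination h.1 - h.2
      subst h5
      rw [add_right_cancel h.1]
    · intro w
      exact not_group (θ w) (hz0 w) (hnl w)

end

/-- **Linear lower bound at the primes**: for every prime `p` there are at least `(p - 5) / 2`
quasigroups of order `p`, none isotopic to a group, with mutually orthogonal Cayley tables. -/
theorem result : ∀ p : ℕ, p.Prime → p ≤ 2 * M p + 5 := by
  intro p hp
  have : Fact p.Prime := ⟨hp⟩
  by_cases h7 : 7 ≤ p
  · obtain ⟨m, hm, hr⟩ := realizable (p := p) h7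
    have h1 : m ≤ M p := by
      refine le_csSup ⟨p - 1, ?_⟩ hr
      intro m' hm'
      exact Realizable.le hp.two_le hm'
    omega
  · have h1 : p ≠ 6 := by
      rintro rfl
      norm_num at hp
    omega

end Pool.Agent.Results.MP_adbd0c_co.PrimeOrders
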