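import Pool.Agent.Lib_helper37.ML.Prod

/-!
# MacNeish's theorem for squares not isotopic to a group

In the direct product of two families of `k` mutually orthogonal latin squares, of orders `s` and
`t`, all `k` squares share a subarray of order `t`. Permute its rows by `π`, the same `π` for all
squares: for each square at most one `π` gives a square isotopic to a group.
-/

set_option autoImplicit false

open Pool.Agent.Mols65 Pool.Agent.Lib_helper37.ML

namespace Pool.Agent.Results.MP_adbd0c_co.ProductBound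

/-- There are `k` mutually orthogonal latin squares of order `n` (isotopic to groups or not). -/
def Mols (n k : ℕ) : Prop :=
  ∃ Q : Fin k → Quasigroup (Fin n), ∀ i j, i ≠ j → Orthogonal (Q i) (Q j)

/-- `N n` is the largest number of mutually orthogonal latin squares of order `n`. -/
noncomputable def N (n : ℕ) : ℕ := sSup {k : ℕ | Mols n k}

theorem Mols.le {n m : ℕ} (hn : 2 ≤ n) (h : Mols n m) : m ≤ n - 1 := by
  obtain ⟨Q, hQ⟩ := h
  obtain ⟨x0, hx0⟩ : ∃ x0 : Fin n, x0 = ⟨0, by omega⟩ := ⟨_, rfl⟩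
  obtain ⟨x1, hx1⟩ : ∃ x1 : Fin n, x1 = ⟨1, by omega⟩ := ⟨_, rfl⟩
  have hx : x0 ≠ x1 := by
    rw [hx0, hx1]
    simp [Fin.ext_iff]
  choose y hy using fun i : Fin m => ((Q i).left_solve x1 ((Q i).op x0 x0)).exists
  have hy0 : ∀ i, y i ≠ x0 := by
    intro i h
    have h1 := hy i
    rw [h] at h1
    exact hx ((Q i).inj_right h1).symm
  have hinj : Function.Injective y := by
    intro i j hij
    by_contra hne
    have h1 := hQ i j hne (a₁ := (x1, y i)) (a₂ := (x0, x0))
      (Prod.ext (hy i) (by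
        show (Q j).op x1 (y i) = (Q j).op x0 x0
        rw [hij]
        exact hy j))
    exact hx (congrArg Prod.fst h1).symm
  have h1 : ((Finset.univ : Finset (Fin m)).image y).card ≤
      ((Finset.univ : Finset (Fin n)).erase x0).card := by
    apply Finset.card_le_card
    intro z hz
    obtain ⟨i, -, rfl⟩ := Finset.mem_image.1 hz
    exact Finset.mem_erase.2 ⟨hy0 i, Finset.mem_univ _⟩
  rw [Finset.card_image_of_injective _ hinj, Finset.card_erase_of_mem (Finset.mem_univ _)] at h1
  simpa using h1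

theorem Mols.mono {n k k' : ℕ} (h : Mols n k) (hk : k' ≤ k) : Mols n k' := by
  obtain ⟨Q, hQ⟩ := h
  exact ⟨fun i => Q (Fin.castLE hk i), fun i j hij =>
    hQ _ _ fun h => hij (Fin.castLE_injective hk h)⟩

theorem mols_N {n : ℕ} (hn : 2 ≤ n) : Mols n (N n) := by
  have h0 : Mols n 0 := ⟨fun i => i.elim0, fun i => i.elim0⟩
  have h1 : N n ∈ {k : ℕ | Mols n k} :=
    Nat.sSup_mem ⟨0, h0⟩ ⟨n - 1, fun k hk => Mols.le hn hk⟩
  exact h1

theorem le_M {n k : ℕ} (hn : 2 ≤ n) (h : Realizable n k) : k ≤ M n := by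
  refine le_csSup ⟨n - 1, ?_⟩ h
  intro m' hm'
  exact Realizable.le hn hm'

theorem product {m n : ℕ} (hm : 2 ≤ m) (hn : 2 ≤ n) (hmn : 5 ≤ m * n) :
    min (N m) (N n) ≤ M (m * n) := by
  obtain ⟨k, hk⟩ : ∃ k, k = min (N m) (N n) := ⟨_, rfl⟩
  rw [← hk]
  have hkm : k ≤ N m := by rw [hk]; exact min_le_left _ _
  have hkn : k ≤ N n := by rw [hk]; exact min_le_right _ _
  have h1 := (mols_N hm).mono hkm
  have h2 := (mols_N hn).mono hkn
  have h3 := Mols.le hm h1
  have h4 := Mols.le hn h2
  have hA : OB (Fin m) (k + 2) := by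
    obtain ⟨Q, hQ⟩ := h1
    exact OB.of_squares Q hQ
  have hB : OB (Fin n) (k + 2) := by
    obtain ⟨Q, hQ⟩ := h2
    exact OB.of_squares Q hQ
  have hmn2 : 2 ≤ m * n := by omega
  apply le_M hmn2
  by_cases hm3 : 3 ≤ m
  · exact realizable_prod hm3 (by omega) hA hB
  · have hm2 : m = 2 := by omega
    subst hm2
    rw [mul_comm]
    exact realizable_prod (by omega) (by omega) hB hA

/-- The array of order `n` whose number of coordinates comes from the least prime power. -/
theorem array {k : ℕ} (n : ℕ) (hn : n ≠ 0)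
    (h : ∀ p : ℕ, p.Prime → p ∣ n → k < p ^ n.factorization p) : OB (Fin n) (k + 2) := by
  classical
  induction n using Nat.recOnPosPrimePosCoprime with
  | prime_pow p a hp ha =>
    have : Fact p.Prime := ⟨hp⟩
    have h1 := h p hp (dvd_pow_self p ha.ne')
    rw [hp.factorization_pow, Finsupp.single_eq_same] at h1
    have hcard : Nat.card (GaloisField p a) = p ^ a := GaloisField.card p a ha.ne'
    have hfin : Finite (GaloisField p a) :=
      Nat.finite_of_card_ne_zero (by rw [hcard]; exact pow_ne_zero _ hp.ne_zero)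
    have hF : Fintype (GaloisField p a) := Fintype.ofFinite _
    have hcard' : Fintype.card (GaloisField p a) = p ^ a := by
      rw [← Nat.card_eq_fintype_card, hcard]
    obtain ⟨f⟩ : Nonempty (Fin (k + 1) ↪ GaloisField p a) := by
      apply Function.Embedding.nonempty_of_card_le
      rw [Fintype.card_fin, hcard']
      exact h1
    exact (OB.field f).equiv (Fintype.equivFinOfCardEq hcard')
  | zero => exact absurd rfl hn
  | one =>
    refine ⟨fun _ _ => 0, fun i j _ x y _ => Subsingleton.elim _ _⟩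
  | coprime a b ha hb hab iha ihb =>
    have ha0 : a ≠ 0 := by omega
    have hb0 : b ≠ 0 := by omega
    have hA := iha ha0 (fun p hp hpa => by
      have h1 := h p hp (hpa.mul_right b)
      rwa [Nat.factorization_mul ha0 hb0, Finsupp.add_apply,
        Nat.factorization_eq_zero_of_not_dvd (n := b) (fun hpb =>
          hp.one_lt.ne' (Nat.dvd_one.1 (hab ▸ Nat.dvd_gcd hpa hpb))), add_zero] at h1)
    have hB := ihb hb0 (fun p hp hpb => by
      have h1 := h p hp (hpb.mul_left a)
      rwa [Nat.factorization_mul ha0 hb0, Finsupp.add_apply,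
        Nat.factorization_eq_zero_of_not_dvd (n := a) (fun hpa =>
          hp.one_lt.ne' (Nat.dvd_one.1 (hab ▸ Nat.dvd_gcd hpa hpb))), zero_add] at h1)
    exact (hA.prod hB).equiv finProdFinEquiv

theorem macNeish {n k : ℕ} (hn : 2 ≤ n) (hp : ¬ IsPrimePow n)
    (h : ∀ p : ℕ, p.Prime → p ∣ n → k < p ^ n.factorization p) : k ≤ M n := by
  have hn0 : n ≠ 0 := by omega
  have hq : n.minFac.Prime := Nat.minFac_prime (by omega)
  obtain ⟨q, hqd⟩ : ∃ q, q = n.minFac := ⟨_, rfl⟩
  rw [← hqd] at hq
  have hqn : q ∣ n := by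
    rw [hqd]
    exact Nat.minFac_dvd n
  obtain ⟨a, ha⟩ : ∃ a, a = q ^ n.factorization q := ⟨_, rfl⟩
  obtain ⟨b, hb⟩ : ∃ b, b = n / q ^ n.factorization q := ⟨_, rfl⟩
  have hab : a * b = n := by
    rw [ha, hb]
    exact Nat.ordProj_mul_ordCompl_eq_self n q
  have hv : n.factorization q ≠ 0 := (hq.factorization_pos_of_dvd hn0 hqn).ne'
  have hqb : ¬ q ∣ b := by
    rw [hb]
    exact Nat.not_dvd_ordCompl hq hn0
  have hcop : Nat.Coprime a b := by
    rw [ha]
    exact Nat.Coprime.pow_left _ ((Nat.Prime.coprime_iff_not_dvd hq).2 hqb)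
  have ha0 : a ≠ 0 := by
    rintro rfl
    omega
  have hb0 : b ≠ 0 := by
    rintro rfl
    omega
  have ha2 : 2 ≤ a := by
    rw [ha]
    exact hq.two_le.trans (Nat.le_self_pow hv q)
  have hb1 : b ≠ 1 := by
    rintro rfl
    apply hp
    rw [← hab, mul_one, ha]
    exact hq.isPrimePow.pow hv
  have hfac : ∀ p : ℕ, p.Prime → p ∣ b → k < p ^ b.factorization p := by
    intro p hp' hpb
    have h1 := h p hp' (by rw [← hab]; exact hpb.mul_left a)
    rwa [← hab, Nat.factorization_mul ha0 hb0, Finsupp.add_apply,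
      Nat.factorization_eq_zero_of_not_dvd (n := a) (fun hpa =>
        hp'.one_lt.ne' (Nat.dvd_one.1 (hcop ▸ Nat.dvd_gcd hpa hpb))), zero_add] at h1
  have hfaca : ∀ p : ℕ, p.Prime → p ∣ a → k < p ^ a.factorization p := by
    intro p hp' hpa
    have h1 := h p hp' (by rw [← hab]; exact hpa.mul_right b)
    rwa [← hab, Nat.factorization_mul ha0 hb0, Finsupp.add_apply,
      Nat.factorization_eq_zero_of_not_dvd (n := b) (fun hpb =>
        hp'.one_lt.ne' (Nat.dvd_one.1 (hcop ▸ Nat.dvd_gcd hpa hpb))), add_zero] at h1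
  have hA := array a ha0 hfaca
  have hB := array b hb0 hfac
  have hka : k < a := by
    rw [ha]
    exact h q hq hqn
  have hkb : k < b := by
    have hr : b.minFac.Prime := Nat.minFac_prime hb1
    have h1 := hfac _ hr (Nat.minFac_dvd b)
    exact lt_of_lt_of_le h1 (Nat.le_of_dvd (by omega) (Nat.ordProj_dvd b _))
  apply le_M hn
  rw [← hab]
  by_cases ha3 : 3 ≤ a
  · exact realizable_prod ha3 hkb hA hB
  · have hb3 : 3 ≤ b := by
      by_contra hcon
      have h1 : a = 2 := by omega
      have h2 : b = 2 := by omega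
      rw [h1, h2] at hcop
      norm_num at hcop
    rw [mul_comm]
    exact realizable_prod hb3 hka hB hA

/-- **MacNeish's theorem for `M`**: `M (m n) ≥ min (N m) (N n)`, and for every `n ≥ 2` which is
not a prime power `M n ≥ q - 1`, where `q` is the least of the prime powers in the
factorisation of `n`. -/
theorem result :
    (∀ m n : ℕ, 2 ≤ m → 2 ≤ n → 5 ≤ m * n → min (N m) (N n) ≤ M (m * n)) ∧
    ∀ n k : ℕ, 2 ≤ n → ¬ IsPrimePow n →
      (∀ p : ℕ, p.Prime → p ∣ n → k < p ^ n.factorization p) → k ≤ M n :=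
  ⟨fun _ _ hm hn hmn => product hm hn hmn, fun _ _ hn hp h => macNeish hn hp h⟩

end Pool.Agent.Results.MP_adbd0c_co.ProductBound
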